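import Mathlib
import Pool.Agent.Lib_helper10.LogRank.Defs
import Pool.Agent.Lib_helper38.XA.Defs
import Pool.Agent.Lib_helper30.XA.E2
import Pool.Agent.Lib_helper35.XA.G1
import Pool.Agent.Lib_helper16.XA.G4
import Pool.Agent.Lib_helper58.XA.G5

set_option autoImplicit false

namespace Pool.Agent.XA

open Finset Filter Pool.Agent.XO Pool.Agent.Lib_helper10.LogRank


theorem h1_flip {X Y : Type} (π : Protocol X Y) (b : Bool) :
    ∃ π' : Protocol X Y, (∀ x y, π'.eval x y = (π.eval x y ^^ b)) ∧ π'.cost = π.cost := by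
  induction π with
  | leaf c => exact ⟨Protocol.leaf (c ^^ b), fun x y => rfl, rfl⟩
  | alice s t0 t1 h0 h1 =>
    obtain ⟨p0, e0, c0⟩ := h0
    obtain ⟨p1, e1, c1⟩ := h1
    refine ⟨Protocol.alice s p0 p1, fun x y => ?_, ?_⟩
    · simp only [Protocol.eval]
      by_cases h : s x
      · rw [if_pos h, if_pos h, e1]
      · rw [if_neg h, if_neg h, e0]
    · simp only [Protocol.cost, c0, c1]
  | bob s t0 t1 h0 h1 =>
    obtain ⟨p0, e0, c0⟩ := h0
    obtain ⟨p1, e1, c1⟩ := h1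
    refine ⟨Protocol.bob s p0 p1, fun x y => ?_, ?_⟩
    · simp only [Protocol.eval]
      by_cases h : s y
      · rw [if_pos h, if_pos h, e1]
      · rw [if_neg h, if_neg h, e0]
    · simp only [Protocol.cost, c0, c1]

theorem h1_xor {X Y : Type} (π : Protocol X Y) (u : X → Bool) (v : Y → Bool) :
    ∃ π' : Protocol X Y, (∀ x y, π'.eval x y = (π.eval x y ^^ u x ^^ v y)) ∧
      π'.cost = π.cost + 2 := by
  obtain ⟨p0, e0, c0⟩ := h1_flip π false
  obtain ⟨p1, e1, c1⟩ := h1_flip π true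
  refine ⟨Protocol.alice u (Protocol.bob v p0 p1) (Protocol.bob v p1 p0), fun x y => ?_, ?_⟩
  · simp only [Protocol.eval]
    cases hu : u x <;> cases hv : v y <;> simp [e0, e1]
  · simp only [Protocol.cost, c0, c1, max_self]

theorem h1_rank_add {m n : Type} [Fintype m] [Fintype n] (A B : Matrix m n ℝ) :
    (A + B).rank ≤ A.rank + B.rank := by
  unfold Matrix.rank
  rw [Matrix.mulVecLin_add]
  have h1 : LinearMap.range (A.mulVecLin + B.mulVecLin) ≤
      LinearMap.range A.mulVecLin ⊔ LinearMap.range B.mulVecLin := by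
    rintro _ ⟨x, rfl⟩
    rw [LinearMap.add_apply]
    exact Submodule.add_mem_sup (LinearMap.mem_range_self _ _) (LinearMap.mem_range_self _ _)
  exact (Submodule.finrank_mono h1).trans (Submodule.finrank_add_le_finrank_add_finrank _ _)

theorem h1_rank_zero {m n : Type} [Fintype m] [Fintype n] (A : Matrix m n ℝ) (h : A.rank = 0) :
    A = 0 := by
  classical
  unfold Matrix.rank at h
  rw [Submodule.finrank_eq_zero, LinearMap.range_eq_bot] at h
  ext i j
  have h1 := congrFun (LinearMap.congr_fun h (Pi.single j 1)) i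
  rw [Matrix.mulVecLin_apply, Matrix.mulVec_single_one] at h1
  simpa using h1

theorem h1_rank {A Y : Type} [Fintype A] [Fintype Y] (g : Y → A → Bool) (u : A → Bool)
    (v : Y → Bool) :
    (Matrix.of fun (a : A) (y : Y) => (if g y a then -1 else 1 : ℝ)).rank ≤
      realRank (fun (a : A) (y : Y) => (g y a ^^ u a ^^ v y)) + 1 := by
  classical
  obtain ⟨B, hB⟩ : ∃ B : Matrix A Y ℝ,
      B = Matrix.of fun (a : A) (y : Y) => if (g y a ^^ u a ^^ v y) then (1 : ℝ) else 0 := ⟨_, rfl⟩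
  have hr : realRank (fun (a : A) (y : Y) => (g y a ^^ u a ^^ v y)) = B.rank := by
    rw [hB]; rfl
  have h1 : (Matrix.of fun (a : A) (y : Y) => (if g y a then -1 else 1 : ℝ)) =
      Matrix.diagonal (fun a => (if u a then -1 else 1 : ℝ)) *
        (Matrix.vecMulVec (fun _ : A => (1 : ℝ)) (fun _ : Y => (1 : ℝ)) +
          B * Matrix.diagonal (fun _ : Y => (-2 : ℝ))) *
        Matrix.diagonal (fun y => (if v y then -1 else 1 : ℝ)) := by
    ext a y
    rw [Matrix.mul_diagonal, Matrix.diagonal_mul, Matrix.add_apply, Matrix.mul_diagonal,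
      Matrix.vecMulVec_apply, hB]
    simp only [Matrix.of_apply]
    cases g y a <;> cases u a <;> cases v y <;> norm_num
  rw [h1, hr]
  refine (Matrix.rank_mul_le_left _ _).trans ((Matrix.rank_mul_le_right _ _).trans ?_)
  refine (h1_rank_add _ _).trans ?_
  have h2 := Matrix.rank_vecMulVec_le (fun _ : A => (1 : ℝ)) (fun _ : Y => (1 : ℝ))
  have h3 := Matrix.rank_mul_le_left B (Matrix.diagonal (fun _ : Y => (-2 : ℝ)))
  omega

/-- one orbit -/
theorem afinal_orbit (h : NoAWorld) {ε : ℝ} (hε : 0 < ε) : ∃ C : ℝ, 0 ≤ C ∧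
    ∀ (A : Type) [AddCommGroup A] [Fintype A] (Y : Type) [Fintype Y] (g : Y → A → Bool),
      (∀ y b, ∃ y', ∀ a, g y' a = g y (a + b)) → ∀ (u : A → Bool) (v : Y → Bool),
      ∃ π : Protocol A Y, (∀ a y, π.eval a y = (g y a ^^ u a ^^ v y)) ∧
        (π.cost : ℝ) ≤ C * (realRank fun (a : A) (y : Y) => (g y a ^^ u a ^^ v y) : ℝ) ^ ε := by
  classical
  obtain ⟨C0, hC0, hgame⟩ := eval_game h hε
  refine ⟨C0 * 2 ^ ε + 2, by positivity, ?_⟩
  intro A _ _ Y _ g hg u v
  obtain ⟨ρ, hρ⟩ : ∃ ρ : ℕ, ρ = realRank (fun (a : A) (y : Y) => (g y a ^^ u a ^^ v y)) := ⟨_, rfl⟩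
  rcases Nat.eq_zero_or_pos ρ with h0 | h0
  · -- rank zero
    have hB : (Matrix.of fun (a : A) (y : Y) => if (g y a ^^ u a ^^ v y) then (1 : ℝ) else 0) = 0 := by
      apply h1_rank_zero
      rw [h0] at hρ
      exact hρ.symm
    refine ⟨Protocol.leaf false, fun a y => ?_, ?_⟩
    · have h1 := congrFun (congrFun hB a) y
      simp only [Matrix.of_apply, Matrix.zero_apply] at h1
      simp only [Protocol.eval]
      by_contra hc
      have h2 : (g y a ^^ u a ^^ v y) = true := by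
        cases h3 : (g y a ^^ u a ^^ v y)
        · exact absurd h3.symm hc
        · rfl
      rw [if_pos h2] at h1
      norm_num at h1
    · simp only [Protocol.cost, Nat.cast_zero]
      positivity
  obtain ⟨f, hf⟩ : ∃ f : Y → A → ℝ, f = fun y a => if g y a then -1 else 1 := ⟨_, rfl⟩
  have hf1 : ∀ y a, f y a = 1 ∨ f y a = -1 := by
    intro y a
    rw [hf]
    simp only
    cases g y a
    · left; simp
    · right; simp
  obtain ⟨S, hS⟩ : ∃ S : Finset (AddChar A ℂ),
      S = univ.filter fun χ : AddChar A ℂ => ∃ y, ft (f y) χ ≠ 0 := ⟨_, rfl⟩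
  have hSc : S.card ≤ ρ + 1 := by
    have h1 := rank_inv f (fun y b => by
      obtain ⟨y', hy'⟩ := hg y b
      exact ⟨y', fun a => by rw [hf]; simp only [hy']⟩)
    rw [hS]
    refine le_trans ?_ (h1.trans ?_)
    · apply le_of_eq
      congr
    · rw [hf, hρ]
      exact h1_rank g u v
  obtain ⟨r, hr⟩ : ∃ r, r = max 2 S.card := ⟨_, rfl⟩
  have hr2 : 2 ≤ r := by rw [hr]; exact le_max_left _ _
  have hrS : S.card ≤ r := by rw [hr]; exact le_max_right _ _
  have hrρ : r ≤ 2 * ρ := by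
    rw [hr]
    apply max_le <;> omega
  have hmem : ∀ y c, ft (f y) c ≠ 0 → c ∈ S := by
    intro y c hc
    rw [hS, mem_filter]
    exact ⟨mem_univ _, y, hc⟩
  have hord : ∀ c ∈ S, addOrderOf c ≤ r ^ 3 := by
    intro c hc
    rw [hS, mem_filter] at hc
    obtain ⟨_, y, hy⟩ := hc
    have h1 := ft_ord (hf1 y) hy
    have h2 : (spt (ft (f y))).card ≤ S.card := by
      apply card_le_card
      intro x hx
      unfold spt at hx
      rw [mem_filter] at hx
      exact hmem y x hx.2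
    have h3 : (spt (ft (f y))).card ^ 2 ≤ r ^ 2 := Nat.pow_le_pow_left (h2.trans hrS) 2
    calc addOrderOf c ≤ 2 * (spt (ft (f y))).card ^ 2 := h1
      _ ≤ r * r ^ 2 := Nat.mul_le_mul hr2 h3
      _ = r ^ 3 := by ring
  obtain ⟨π, hπ, hc⟩ := hgame r hr2 (AddChar A ℂ) S hrS hord A Y
    (fun a => (AddChar.doubleDualEmb a : AddChar (AddChar A ℂ) ℂ)) (fun y => ft (f y))
    (fun y => ft_bf (hf1 y)) hmem
  obtain ⟨π', hπ', hc'⟩ := h1_xor π u v
  refine ⟨π', fun a y => ?_, ?_⟩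
  · rw [hπ' a y, hπ a y, ft_inv, hf]
    have h1 : decide ((((fun (y : Y) (a : A) => (if g y a then -1 else 1 : ℝ)) y a : ℝ) : ℂ) = -1) =
        g y a := by
      by_cases hga : g y a = true
      · simp [hga]
      · simp only [hga]
        norm_num
    rw [h1]
  · rw [← hρ, hc']
    have hρ1 : (1 : ℝ) ≤ ρ := by exact_mod_cast h0
    have h1 : (r : ℝ) ^ ε ≤ (2 * ρ : ℝ) ^ ε := by
      apply Real.rpow_le_rpow (by positivity) _ hε.le
      exact_mod_cast hrρ
    have h2 : (2 * ρ : ℝ) ^ ε = 2 ^ ε * (ρ : ℝ) ^ ε :=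
      Real.mul_rpow (by norm_num) (by positivity)
    have h3 : (1 : ℝ) ≤ (ρ : ℝ) ^ ε := Real.one_le_rpow hρ1 hε.le
    have h4 : C0 * (r : ℝ) ^ ε ≤ C0 * (2 ^ ε * (ρ : ℝ) ^ ε) := by
      rw [← h2]
      exact mul_le_mul_of_nonneg_left h1 hC0
    push_cast
    calc (π.cost : ℝ) + 2 ≤ C0 * (2 ^ ε * (ρ : ℝ) ^ ε) + 2 * (ρ : ℝ) ^ ε := by linarith
      _ = (C0 * 2 ^ ε + 2) * (ρ : ℝ) ^ ε := by ring

end Pool.Agent.XA
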